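import Pool.Agent.U143.KC.Tower

/-!
# The Knörr–Robinson conjecture is a congruence modulo `p`

`KRC p G` (`Pool.Agent.Y63.KR`) is the conjecture for `G` in the form of the problem,
`χ₂ = k(G) - z_p(G)`; `numDefectZero p G` is `z_p(G)`. `Wr p G` is the wreath product `G ≀ C_p` and
`WrN p j G` the `j`-th iterated one, `WrN p 0 G = G`, `WrN p (j + 1) G = WrN p j (G ≀ C_p)`.

Proof. By the theorem of Knörr and Robinson `a(G) = k(G) - χ₂` is the alternating sum of the class numbers
of the stabilisers of the chains of nontrivial `p`-subgroups. The base group of `G ≀ C_p` has `|G|^(p-1)`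
complements, all conjugate, and their centralisers in the base group are isomorphic to `G`
(`Pool.Agent.U143.KC.sum_cpl`). With the formulas for normal subgroups of index `p`
(`Pool.Agent.R674.Ce.AK_formula`, `DK_formula`) and for direct products this gives
`p a(G ≀ C_p) = a(G)^p - a(G)` and `p z(G ≀ C_p) = z(G)^p - z(G)`, `z = z_p`. So `p^(k+1)`, `k ≥ 1`, divides
`a(G) - z(G)` if and only if `p^k` divides it and `a(G ≀ C_p) - z(G ≀ C_p)`. Modulo `p` the number `z(G)` is the
trace of the sum of the central characters of defect zero (`Pool.Agent.N85.WM.Dzt.main`), and so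
`|G| z(G)` is the number of the pairs whose commutator is a `p`-element, modulo `p |G|_p`.
-/

set_option autoImplicit false

noncomputable section

namespace Pool.Agent.Results.MP_b6945b_al.CongruenceModP

open Pool.Agent.Y63.KR (KRC chi2 IsPChain chainSetoid chainStabilizer)
open Pool.Agent.Y63.AWC (numDefectZero IsIrreducibleCharacter)
open Pool.Agent.N85.WM (Wr)
open Pool.Agent.U507.AW (WrN)

/-- The error term `χ₂ - (k(G) - z_p(G))` of the Knörr-Robinson conjecture. -/
def err (p : ℕ) (G : Type) [Group G] : ℚ :=
  chi2 p G - ((Nat.card (ConjClasses G) : ℚ) - (numDefectZero p G : ℚ))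

/-- The number of pairs of commuting elements of the subgroup `H`. -/
def commutingPairs {G : Type} [Group G] (H : Subgroup G) : ℕ :=
  Nat.card {t : G × G // (t.1 ∈ H ∧ t.2 ∈ H) ∧ t.1 * t.2 = t.2 * t.1}

/-- The sum of `(-1)^|σ|` times the number of commuting pairs in the stabiliser `G_σ`, over all chains
`σ` of nontrivial `p`-subgroups of `G`, the empty one included. -/
def chainSum (p : ℕ) (G : Type) [Group G] : ℤ :=
  ∑ᶠ σ : {σ : Set (Subgroup G) // IsPChain p σ},
    (-1) ^ σ.1.ncard * (commutingPairs (chainStabilizer σ.1) : ℤ)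

/-- The number of pairs `(x, y)` of elements of `G` such that the commutator `xyx⁻¹y⁻¹` is a
`p`-element. -/
def commutatorPairs (p : ℕ) (G : Type) [Group G] : ℕ :=
  Nat.card {t : G × G // ∃ j : ℕ, orderOf (t.1 * t.2 * t.1⁻¹ * t.2⁻¹) = p ^ j}

/-- The congruence modulo `p |G|_p`. -/
def Cong (p : ℕ) (G : Type) [Group G] : Prop :=
  chainSum p G ≡ commutatorPairs p G [ZMOD (p ^ ((Nat.card G).factorization p + 1) : ℕ)]

/-- The number of real conjugacy classes. -/
def numRealClasses (H : Type) [Group H] : ℕ :=
  Nat.card {c : ConjClasses H // ∃ x : H, ConjClasses.mk x = c ∧ IsConj x x⁻¹}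

/-- The number of real-valued irreducible complex characters of `p`-defect zero. -/
def numRealDefectZero (p : ℕ) (G : Type) [Group G] : ℕ :=
  Nat.card {χ : G → ℂ // IsIrreducibleCharacter χ ∧
    (∃ n : ℕ, χ 1 = (n : ℂ) ∧ n.factorization p = (Nat.card G).factorization p) ∧
    ∀ g, (χ g).im = 0}

/-- The sum of the numbers of real conjugacy classes of the stabilisers `G_σ`, over representatives
`σ` of the `G`-conjugacy classes of chains of nontrivial `p`-subgroups of `G`, the empty chain
included. -/
def realChainClasses (p : ℕ) (G : Type) [Group G] : ℕ :=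
  ∑ᶠ c : Quotient (chainSetoid p G), numRealClasses (chainStabilizer c.out.1)

/-- **The Knörr–Robinson conjecture is a congruence modulo `p`, for all primes `p`.**
Let `err(G) = χ₂ - (k(G) - z_p(G))`, and let `Cong p G` be the statement that the sum of `(-1)^|σ|` times
the number of commuting pairs in `G_σ`, over the chains `σ` of nontrivial `p`-subgroups (the empty one
included), is congruent modulo `p |G|_p` to the number of the pairs of elements of `G` whose commutator
is a `p`-element.
(1) For one finite group `G`: the conjecture holds for `G` if and only if `Cong` holds for all iterated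
wreath products `G, G ≀ C_p, (G ≀ C_p) ≀ C_p, …`; `err(G)` is an integer, `p ^ a` divides it if and only if
`Cong` holds for the first `a` of these groups, and
`p err(G ≀ C_p) = z_p(G)^p - (z_p(G) - err(G))^p - err(G)`.
(2) For a class `C` of groups (e.g. all groups) such that `G ≀ C_p ∈ C` for finite `G ∈ C`: the
conjecture holds for all finite groups in `C` if and only if `Cong` holds for them.
(3) If `p = 2` then `Cong 2 G` says that the number of real classes of the stabilisers `G_σ`, for
representatives `σ` of the classes of chains, and the number of real characters of `2`-defect zero have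
the same parity. -/
theorem result (p : ℕ) [Fact p.Prime] :
    (∀ (G : Type) [Group G] [Finite G],
      (KRC p G ↔ ∀ j : ℕ, Cong p (WrN p j G)) ∧
      (∃ m : ℤ, err p G = m) ∧
      (∀ a : ℕ, (∃ m : ℤ, err p G = p ^ a * m) ↔ ∀ j < a, Cong p (WrN p j G)) ∧
      p * err p (Wr p G) =
        (numDefectZero p G : ℚ) ^ p - ((numDefectZero p G : ℚ) - err p G) ^ p - err p G) ∧
    (∀ C : (G : Type) → Group G → Prop,
      (∀ (G : Type) [i : Group G] [Finite G], C G i → C (Wr p G) inferInstance) →
      ((∀ (G : Type) [i : Group G] [Finite G], C G i → KRC p G) ↔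
        ∀ (G : Type) [i : Group G] [Finite G], C G i → Cong p G)) ∧
    (p = 2 → ∀ (G : Type) [Group G] [Finite G],
      Cong p G ↔ realChainClasses p G ≡ numRealDefectZero p G [MOD 2]) := by
  have hpp : p.Prime := Fact.out
  have : NeZero p := ⟨hpp.ne_zero⟩
  have hcs : ∀ (G : Type) [Group G] [Finite G], Cong p G ↔ Pool.Agent.U143.KC.Cg p G := by
    intro G _ _
    unfold Cong Pool.Agent.U143.KC.Cg
    rw [Pool.Agent.R674.Ce.AK_eq]
    exact Iff.rfl
  have hN : ∀ (G : Type) [Group G] [Finite G] (j : ℕ),
      Cong p (WrN p j G) ↔ Pool.Agent.U143.KC.Cg p (WrN p j G) := by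
    intro G _ hG j
    have := Pool.Agent.U507.AW.finite_WrN p j G hG
    exact hcs _
  have hE : ∀ (G : Type) [Group G] [Finite G], err p G =
      ((numDefectZero p G : ℤ) - Pool.Agent.U143.KC.altK p G : ℤ) := by
    intro G _ _
    exact (Pool.Agent.U259.KR.E_chi2 G).symm
  refine ⟨fun G _ _ => ⟨?_, ⟨_, hE G⟩, fun a => ?_, ?_⟩, fun C hC => ?_, ?_⟩
  · rw [Pool.Agent.U143.KC.tower_eq]
    exact forall_congr' fun j => (hN G j).symm
  · refine Iff.trans ?_ ((Pool.Agent.U143.KC.tower a G).trans
      (forall_congr' fun j => forall_congr' fun _ => (hN G j).symm))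
    rw [hE]
    constructor
    · rintro ⟨m, hm⟩
      refine ⟨-m, ?_⟩
      have h1 : (numDefectZero p G : ℤ) - Pool.Agent.U143.KC.altK p G = (p : ℤ) ^ a * m := by
        exact_mod_cast hm
      linear_combination -h1
    · rintro ⟨m, hm⟩
      refine ⟨-m, ?_⟩
      have h1 : (numDefectZero p G : ℤ) - Pool.Agent.U143.KC.altK p G = (p : ℤ) ^ a * (-m) := by
        linear_combination -hm
      exact_mod_cast h1
  · have hf : Finite (Wr p G) := Pool.Agent.N85.WM.fin_wr p G
    rw [hE, hE]
    have h1 := Pool.Agent.U143.KC.altK_wr (p := p) G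
    have h2 := Pool.Agent.U143.KC.dz_wr (p := p) G
    have h3 : (p : ℤ) * ((numDefectZero p (Wr p G) : ℤ) - Pool.Agent.U143.KC.altK p (Wr p G)) =
        (numDefectZero p G : ℤ) ^ p - ((numDefectZero p G : ℤ) -
          ((numDefectZero p G : ℤ) - Pool.Agent.U143.KC.altK p G)) ^ p -
          ((numDefectZero p G : ℤ) - Pool.Agent.U143.KC.altK p G) := by
      rw [sub_sub_cancel]
      linear_combination h2 - h1
    exact_mod_cast h3
  · refine (Pool.Agent.U143.KC.class_iff (p := p) (fun G i => C G i) (fun G _ _ hG => hC G hG)).trans ?_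
    constructor
    · intro h G _ _ hG
      exact (hcs G).mpr (h G hG)
    · intro h G _ _ hG
      exact (hcs G).mp (h G hG)
  · rintro rfl G _ _
    rw [hcs, Pool.Agent.U143.KC.cg_iff]
    exact (Pool.Agent.Q90.WR.parity_iff 2 G).symm

end Pool.Agent.Results.MP_b6945b_al.CongruenceModP
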