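import Pool.Agent.U259.KQ.Fin

/-!
# The Knörr–Robinson conjecture: the error term is zero, or takes every residue class

`KRC p G` (`Pool.Agent.Y63.KR`) is the conjecture for `G` in the form of the problem,
`χ₂ = k(G) - z_p(G)`, and `err p G` its error term `χ₂ - (k(G) - z_p(G))`, an integer. `Wr q G` is the
wreath product `G ≀ C_q` with the cyclic group of order `q`.

Proof. By the theorem of Knörr and Robinson `k(G) - χ₂` is the alternating sum `a(G)` of the class numbers
of the stabilisers of the chains of nontrivial `p`-subgroups, so `err = z - a`, `z = z_p`. Both `a` and `z`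
are multiplicative for direct products and are equal to `n` for the cyclic group of order `n`, if `p ∤ n`;
for `G ≀ C_q` one has `q a' = a ^ q + (q² - 1) a` if `q ≠ p`, `p a' = a ^ p - a` if `q = p`, and the same for
`z` (`Pool.Agent.U259.KQ.altK_rec`, `dz_rec`). Hence, if `q` divides `a - z ≠ 0` then `a' - z'` has exactly
one factor `q` less. For the other primes `r` one first takes the direct product with a cyclic group of
order `n`: by a suitable choice of `n` modulo `r`, if `r` does not divide `a - z`, then it does not
divide `a' - z'` (`Pool.Agent.U259.KQ.choice`), except for `q = 2`, `r = 3` and `a ≡ -z` modulo `3`.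
Treating first `p` (where the condition at `3` for `p = 3` can be arranged) and then the other primes in
increasing order one obtains from a group with `a ≠ z` one with `a - z` prime to a given `m`
(`sep_coprime`). Multiplication by `p` modulo `m` is given by the direct product with a group with
`a = z = p h`, `h` prime to `m`, and all other integers are products of `p` and integers prime to `p`.
For `p = 3` this group is a direct factor of `C_n ≀ C_3`, for `p ≠ 3` it is `C_n ≀ C_2`.
-/

set_option autoImplicit false

noncomputable section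

namespace Pool.Agent.Results.MP_b6945b_al.OmittedResidueDecides

open Pool.Agent.Y63.KR (KRC chi2)
open Pool.Agent.Y63.AWC (numDefectZero)
open Pool.Agent.N85.WM (Wr)

/-- The error term `χ₂ - (k(G) - z_p(G))` of the Knörr-Robinson conjecture. -/
def err (p : ℕ) (G : Type) [Group G] : ℚ :=
  chi2 p G - ((Nat.card (ConjClasses G) : ℚ) - (numDefectZero p G : ℚ))

/-- The error term of the `j`-th iterated wreath product `(⋯((G ≀ C_q) ≀ C_q)⋯) ≀ C_q`. -/
def errN (p q : ℕ) [NeZero q] : ℕ → (G : Type) → [Group G] → ℚ
  | 0, G, _ => err p G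
  | j + 1, G, _ => errN p q j (Wr q G)

/-- **The Knörr–Robinson conjecture: the error term is zero, or takes every residue class.** Let `p` be
any prime.
(1) Let `X` be a class of finite groups which contains the cyclic groups of order prime to `p`, and is
closed under direct products and under `G ↦ G ≀ C_q` for all primes `q` (for `p = 3` also under direct
factors). Then either the conjecture holds for all groups in `X`, or the error term of the conjecture
takes on `X` values in every residue class modulo every positive integer `m`.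
(2) In particular, the conjecture holds at `p` for all finite groups if and only if there is at least
one residue class modulo one positive integer `m` which contains no error term.
(3) For every prime `q` and every finite group `G`:
`q err(G ≀ C_q) = z ^ q - (z - err(G)) ^ q + (q² - 1) err(G)`, `z = z_p(G)`, for `q ≠ p` (and with `-1` in
place of `q² - 1` for `q = p`); `q ^ a` divides `err(G)` if and only if `q` divides the error terms of the
first `a` iterated wreath products; the conjecture holds for `G` if and only if `q` divides the error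
terms of all of them. -/
theorem result (p : ℕ) [Fact p.Prime] :
    (∀ X : (∀ (G : Type) [Group G], Prop),
      (∀ (n : ℕ) [NeZero n], ¬ p ∣ n → X (Multiplicative (ZMod n))) →
      (∀ (G H : Type) [Group G] [Group H] [Finite G] [Finite H], X G → X H → X (G × H)) →
      (∀ (q : ℕ) [Fact q.Prime] (G : Type) [Group G] [Finite G], X G → X (Wr q G)) →
      (p = 3 → ∀ (G H K : Type) [Group G] [Group H] [Group K] [Finite K],
        Nonempty (G × H ≃* K) → X K → X G) →
      ((∀ (G : Type) [Group G] [Finite G], X G → KRC p G) ∨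
        ∀ (m : ℕ) (r : ℤ), m ≠ 0 → ∃ (G : Type) (_ : Group G) (_ : Finite G),
          X G ∧ ∃ k : ℤ, err p G = r + m * k)) ∧
    ((∀ (G : Type) [Group G] [Finite G], KRC p G) ↔
      ∃ (m : ℕ) (r : ℤ), m ≠ 0 ∧ ∀ (G : Type) [Group G] [Finite G],
        ¬ ∃ k : ℤ, err p G = r + m * k) ∧
    ∀ (q : ℕ) [Fact q.Prime] (G : Type) [Group G] [Finite G],
      ((q : ℚ) * err p (Wr q G) = (numDefectZero p G : ℚ) ^ q -
        ((numDefectZero p G : ℚ) - err p G) ^ q +
          (if q = p then -1 else (q : ℚ) ^ 2 - 1) * err p G) ∧
      (∀ a : ℕ, (∃ k : ℤ, err p G = (q : ℚ) ^ a * k) ↔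
        ∀ j < a, ∃ k : ℤ, errN p q j G = q * k) ∧
      (KRC p G ↔ ∀ j : ℕ, ∃ k : ℤ, errN p q j G = q * k) := by
  have hE : ∀ (G : Type) [Group G] [Finite G], err p G = (Pool.Agent.U259.KR.E p G : ℚ) := by
    intro G _ _
    exact (Pool.Agent.U259.KR.E_chi2 G).symm
  have hdiv : ∀ (G : Type) [Group G] [Finite G] (m : ℕ) (r : ℤ),
      (m : ℤ) ∣ Pool.Agent.U259.KR.E p G - r ↔ ∃ k : ℤ, err p G = r + m * k := by
    intro G _ _ m r
    rw [hE]
    constructor
    · rintro ⟨k, hk⟩
      refine ⟨k, ?_⟩
      have : Pool.Agent.U259.KR.E p G = r + m * k := by linarith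
      exact_mod_cast this
    · rintro ⟨k, hk⟩
      refine ⟨k, ?_⟩
      have : Pool.Agent.U259.KR.E p G = r + m * k := by exact_mod_cast hk
      linarith
  have hmain : ∀ X : (∀ (G : Type) [Group G], Prop),
      (∀ (n : ℕ) [NeZero n], ¬ p ∣ n → X (Multiplicative (ZMod n))) →
      (∀ (G H : Type) [Group G] [Group H] [Finite G] [Finite H], X G → X H → X (G × H)) →
      (∀ (q : ℕ) [Fact q.Prime] (G : Type) [Group G] [Finite G], X G → X (Wr q G)) →
      (p = 3 → ∀ (G H K : Type) [Group G] [Group H] [Group K] [Finite K],
        Nonempty (G × H ≃* K) → X K → X G) →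
      ((∀ (G : Type) [Group G] [Finite G], X G → KRC p G) ∨
        ∀ (m : ℕ) (r : ℤ), m ≠ 0 → ∃ (G : Type) (_ : Group G) (_ : Finite G),
          X G ∧ ∃ k : ℤ, err p G = r + m * k) := by
    intro X hc hm hw hf
    by_cases h : ∀ (G : Type) [Group G] [Finite G], X G → KRC p G
    · exact Or.inl h
    · refine Or.inr fun m r hm0 => ?_
      push Not at h
      obtain ⟨G, _, _, hG, h1⟩ := h
      rw [Pool.Agent.U259.KR.krc_iff] at h1
      obtain ⟨H, _, _, h2, h3⟩ := Pool.Agent.U259.KQ.dichotomy X hc hm hw hf hm0 hG h1 r
      exact ⟨H, inferInstance, inferInstance, h2, (hdiv H m r).1 h3⟩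
  refine ⟨hmain, ⟨fun h => ⟨2, 1, two_ne_zero, ?_⟩, ?_⟩, fun q _ G _ _ => ?_⟩
  · rintro G _ _ ⟨k, hk⟩
    rw [hE, (Pool.Agent.U259.KR.krc_iff G).1 (h G)] at hk
    have : (0 : ℤ) = 1 + 2 * k := by exact_mod_cast hk
    omega
  · rintro ⟨m, r, hm0, h⟩ G _ _
    rcases hmain (fun _ _ => True) (fun _ _ _ => trivial) (fun _ _ _ _ _ _ _ _ => trivial)
      (fun _ _ _ _ _ _ => trivial) (fun _ _ _ _ _ _ _ _ _ _ => trivial) with h1 | h1
    · exact h1 G trivial
    · obtain ⟨H, _, _, -, h2⟩ := h1 m r hm0
      exact (h H h2).elim
  · have hN : ∀ (j : ℕ) (G : Type) [Group G] [Finite G],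
        errN p q j G = (Pool.Agent.U259.KQ.EN p q j G : ℚ) := by
      intro j
      induction j with
      | zero => exact fun G _ _ => hE G
      | succ j ih => exact fun G _ _ => ih (Wr q G)
    have hd : ∀ (x : ℤ), (∃ k : ℤ, (x : ℚ) = q * k) ↔ (q : ℤ) ∣ x := by
      intro x
      constructor
      · rintro ⟨k, hk⟩
        exact ⟨k, by exact_mod_cast hk⟩
      · rintro ⟨k, hk⟩
        exact ⟨k, by exact_mod_cast hk⟩
    refine ⟨?_, fun a => ?_, ?_⟩
    · have h := Pool.Agent.U259.KQ.E_rec (p := p) q G
      rw [hE, hE]
      have h2 := congrArg (Int.cast : ℤ → ℚ) h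
      push_cast at h2
      rw [h2]
    · rw [hE]
      simp only [hN, hd]
      rw [← Pool.Agent.U259.KQ.E_tower (p := p) q a G]
      constructor
      · rintro ⟨k, hk⟩
        exact ⟨k, by exact_mod_cast hk⟩
      · rintro ⟨k, hk⟩
        exact ⟨k, by exact_mod_cast hk⟩
    · simp only [hN, hd]
      rw [Pool.Agent.U259.KR.krc_iff, Pool.Agent.U259.KQ.E_zero (p := p) q G]

end Pool.Agent.Results.MP_b6945b_al.OmittedResidueDecides
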