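import Pool.Agent.U259.KR.Dyn

/-!
# The Knörr–Robinson conjecture for odd primes: parity, or a weak bound for the error term, decides

`KRC p G` (`Pool.Agent.Y63.KR`) is the conjecture for `G` in the form of the problem,
`χ₂ = k(G) - z_p(G)`, `E p G` is its error term `χ₂ - (k(G) - z_p(G))`, an integer. `WrN j G` is the
`j`-fold iterated wreath product `(…(G ≀ C₂) ≀ C₂ …) ≀ C₂`.

Proof. By the theorem of Knörr and Robinson `k(G) - χ₂` is the alternating sum `a(G)` of the class numbers
of the stabilisers of the chains of nontrivial `p`-subgroups. For odd `p` one has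
`2 a(G ≀ C₂) = a(G)² + 3 a(G)` and `2 z(G ≀ C₂) = z(G)² + 3 z(G)`, `z = z_p` (`Pool.Agent.Q90.WR.altK_wr`,
`defectZero_wr`), so `2 E(G ≀ C₂) = E(G) (2 z(G) + 3 - E(G))`: if `E(G)` is even and not zero, then
`E(G ≀ C₂)` has exactly one factor `2` less. The parity of `E(G)` is that of the number of real classes of
the stabilisers plus the number of real characters of defect zero, because inversion and complex
conjugation are involutions. For the weak bound: `a` and `z` are multiplicative for direct products
(`Pool.Agent.U259.KR.altK_prod`, `dz_prod`); if `a(G) ≠ z(G)`, then some group obtained from `G` by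
wreath products with `C₂` and squares has `|a| ≠ z` and `max (|a|, z) ≥ 2`, and its powers violate the
bound.
-/

set_option autoImplicit false

noncomputable section

namespace Pool.Agent.Results.MP_b6945b_al.ParityOrWeakBound

open Pool.Agent.Y63.KR (KRC chi2 IsPChain chainSetoid chainStabilizer)
open Pool.Agent.Y63.AWC (numDefectZero IsIrreducibleCharacter)
open Pool.Agent.Q90.WR (Wr WrN)

/-- The error term `χ₂ - (k(G) - z_p(G))` of the Knörr-Robinson conjecture. -/
def err (p : ℕ) (G : Type) [Group G] : ℚ :=
  chi2 p G - ((Nat.card (ConjClasses G) : ℚ) - (numDefectZero p G : ℚ))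

/-- The number of real conjugacy classes. -/
def numRealClasses (H : Type) [Group H] : ℕ :=
  Nat.card {c : ConjClasses H // ∃ x : H, ConjClasses.mk x = c ∧ IsConj x x⁻¹}

/-- The number of real-valued irreducible complex characters of `p`-defect zero. -/
def numRealDefectZero (p : ℕ) (G : Type) [Group G] : ℕ :=
  Nat.card {χ : G → ℂ // IsIrreducibleCharacter χ ∧
    (∃ n : ℕ, χ 1 = (n : ℂ) ∧ n.factorization p = (Nat.card G).factorization p) ∧
    ∀ g, (χ g).im = 0}

/-- The sum of the numbers of real conjugacy classes of the stabilisers `G_σ`, over representatives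
`σ` of the `G`-conjugacy classes of chains of nontrivial `p`-subgroups of `G`, the empty chain
included. -/
def realChainClasses (p : ℕ) (G : Type) [Group G] : ℕ :=
  ∑ᶠ c : Quotient (chainSetoid p G), numRealClasses (chainStabilizer c.out.1)

/-- The parity condition. -/
def Parity (p : ℕ) (G : Type) [Group G] : Prop :=
  realChainClasses p G ≡ numRealDefectZero p G [MOD 2]

/-- **The Knörr–Robinson conjecture for odd primes: parity, or a weak bound, decides.** Let `p` be an
odd prime and `C` a class of groups (for example all groups) with `G ≀ C₂ ∈ C` for finite `G ∈ C`.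
(1) The conjecture holds for all finite groups in `C` if and only if for all of them the number of real
classes of the stabilisers `G_σ`, `σ` running over the classes of chains of nontrivial `p`-subgroups, the
empty one included, and the number of real characters of `p`-defect zero have the same parity.
(2) If also `G × G ∈ C` for finite `G ∈ C`, this holds if and only if the error term of the conjecture
is at most `c |G| ^ ε` for the finite groups `G` in `C`, for every `ε > 0` with some constant `c`.
(3) For one finite group `G`: the error term is an integer, `2 err(G ≀ C₂) = err(G) (2 z_p(G) + 3 - err(G))`,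
`2 ^ a` divides it if and only if the parity condition holds for the first `a` iterated wreath products
`WrN j G`, `j < a`; so the conjecture holds for `G` if and only if the parity condition holds for all
iterated wreath products. -/
theorem result (p : ℕ) [Fact p.Prime] (hp2 : p ≠ 2) :
    (∀ C : (G : Type) → Group G → Prop,
      (∀ (G : Type) [i : Group G] [Finite G], C G i → C (Wr G) inferInstance) →
      ((∀ (G : Type) [i : Group G] [Finite G], C G i → KRC p G) ↔
        ∀ (G : Type) [i : Group G] [Finite G], C G i → Parity p G) ∧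
      ((∀ (G : Type) [i : Group G] [Finite G], C G i → C (G × G) inferInstance) →
        ((∀ (G : Type) [i : Group G] [Finite G], C G i → KRC p G) ↔
          ∀ ε : ℝ, 0 < ε → ∃ c : ℝ, ∀ (G : Type) [i : Group G] [Finite G], C G i →
            |(err p G : ℝ)| ≤ c * (Nat.card G : ℝ) ^ ε))) ∧
    ∀ (G : Type) [Group G] [Finite G],
      (KRC p G ↔ err p G = 0) ∧
      (2 * err p (Wr G) = err p G * (2 * (numDefectZero p G : ℚ) + 3 - err p G)) ∧
      (∀ a : ℕ, (∃ m : ℤ, err p G = 2 ^ a * m) ↔ ∀ j < a, Parity p (WrN j G)) ∧
      (KRC p G ↔ ∀ j : ℕ, Parity p (WrN j G)) := by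
  have hE : ∀ (G : Type) [Group G] [Finite G], err p G = (Pool.Agent.U259.KR.E p G : ℚ) := by
    intro G _ _
    exact (Pool.Agent.U259.KR.E_chi2 G).symm
  refine ⟨fun C hwr => ⟨?_, fun hsq => ⟨fun h ε _ => ⟨0, fun G i f hG => ?_⟩, fun h G i f hG => ?_⟩⟩, ?_⟩
  · constructor
    · intro h G i f hG
      exact (Pool.Agent.Q90.WR.krc_one hp2 G).mp (h G hG) 0
    · intro h
      have hN : ∀ (j : ℕ) (G : Type) [i : Group G] [Finite G], C G i → Parity p (WrN j G) := by
        intro j
        induction j with
        | zero => exact fun G _ _ hG => h G hG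
        | succ j ih => exact fun G _ _ hG => ih (Wr G) (hwr G hG)
      intro G i f hG
      exact (Pool.Agent.Q90.WR.krc_one hp2 G).mpr fun j => hN j G hG
  · rw [hE G, (Pool.Agent.U259.KR.krc_iff G).mp (h G hG)]
    simp
  · rw [Pool.Agent.U259.KR.krc_iff]
    refine Pool.Agent.U259.KR.krc_of_bound hp2 C hwr hsq (fun ε hε => ?_) G hG
    obtain ⟨c, hc⟩ := h ε hε
    refine ⟨c, fun G i f hG => ?_⟩
    have := hc G hG
    rw [hE G] at this
    exact_mod_cast this
  · intro G _ _
    refine ⟨?_, ?_, ?_, Pool.Agent.Q90.WR.krc_one hp2 G⟩
    · rw [hE, Pool.Agent.U259.KR.krc_iff]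
      norm_cast
    · have h := Pool.Agent.U259.KR.E_wr (p := p) hp2 G
      rw [hE, hE]
      have h2 : ((2 * Pool.Agent.U259.KR.E p (Wr G) : ℤ) : ℚ) =
        ((- (Pool.Agent.U259.KR.E p G) * (Pool.Agent.U259.KR.E p G -
          (2 * (numDefectZero p G : ℤ) + 3)) : ℤ) : ℚ) := by rw [h]
      push_cast at h2
      linear_combination h2
    · intro a
      refine Iff.trans ?_ (Pool.Agent.U259.KR.dvd_iff hp2 a G)
      rw [hE]
      constructor
      · rintro ⟨m, hm⟩
        exact ⟨m, by exact_mod_cast hm⟩
      · rintro ⟨m, hm⟩
        exact ⟨m, by exact_mod_cast hm⟩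

end Pool.Agent.Results.MP_b6945b_al.ParityOrWeakBound
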