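import Pool.Agent.Y63.NV.Krc

/-!
# The Knörr–Robinson conjecture and the surface groups: `p`-adic continuity in the genus

Let `p` be a prime, `G` a finite group, `X` the poset of its nontrivial `p`-subgroups and `Π_g` the
fundamental group of the closed orientable surface of genus `g`. Put
`χ̃_g(G) = |G|⁻¹ ∑_φ (χ(X^φ(Π_g)) - 1)`, the sum over all homomorphisms `φ : Π_g → G`. For `g = 1` this is
the reduced second equivariant Euler characteristic of the problem, so that the conjecture for `G` says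
`- χ̃_1(G) = z_p(G)`.

We show that `χ̃_g(G)`, `g ≥ 1`, is an integer, that the unreduced number
`|G|⁻¹ ∑_φ χ(X^φ(Π_g)) = χ̃_g(G) + |Hom(Π_g, G)| / |G|` is divisible by `p^(2g-2)`, that the `χ̃_g(G)`, `g ≥ 2`,
satisfy Kummer congruences and that `- χ̃_g(G)` tends `p`-adically to `z_p(G)` if `g ≥ 2` tends `p`-adically
to `1` in the residue class of `1` modulo `p - 1`. Hence the conjecture holds for `G` if and only if
`g ↦ χ̃_g(G)` is `p`-adically continuous at `g = 1`; one single sufficiently large genus decides.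

Sources: the `p`-adic limit and the criterion for continuity are `Pool.Agent.Y63.KR.Chi` of the starting
library (not handed in there); the reduction to groups `H` with `O_p(H) = 1` and `O^p(H) = H` is
`Pool.Agent.Y63.NV.krc_strong` (not handed in there). New here: Kummer congruences, divisibility, the
criterion by one genus, the combination for classes of groups.
-/

set_option autoImplicit false
set_option linter.unusedSectionVars false

open scoped Classical

noncomputable section

namespace Pool.Agent.Results.MP_b6945b_al.SurfaceGroups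

open Pool.Agent.Y63.KR (KRC surfaceWord numHom coords eulerChar fixedPoset chainStabilizer chainSetoid
  alternatingSum)
open Pool.Agent.Y63.AWC (numDefectZero)

/-- `|Hom(Π_g, G)| / |G|`, where `Hom(Π_g, G)` is the set of the `2g`-tuples `(a_i, b_i)` in `G` with
`∏ a_i b_i a_i⁻¹ b_i⁻¹ = 1`. It is an integer for `g ≥ 1` (see `result`). -/
def homs (g : ℕ) (G : Type) [Group G] : ℚ := (numHom g G : ℚ) / (Nat.card G : ℚ)

/-- The equivariant Euler characteristic `|G|⁻¹ ∑_φ χ(X^φ(Π_g))` of the poset `X` of the nontrivial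
`p`-subgroups of `G` for the surface group `Π_g`. -/
def full (p g : ℕ) (G : Type) [Group G] : ℚ :=
  (∑ᶠ q : {q : Fin g → G × G // surfaceWord q = 1},
    (eulerChar (fixedPoset p (coords q.1)) : ℚ)) / (Nat.card G : ℚ)

/-- The reduced equivariant Euler characteristic `χ̃_g(G) = |G|⁻¹ ∑_φ (χ(X^φ(Π_g)) - 1)`. -/
def red (p g : ℕ) (G : Type) [Group G] : ℚ := full p g G - homs g G

/-- The alternating sum of `|Hom(Π_g, G_σ)| / |G_σ|` over representatives `σ` of the conjugacy classes of
chains of nontrivial `p`-subgroups of `G`, the empty chain included. -/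
def chainSum (p g : ℕ) (G : Type) [Group G] : ℚ :=
  ∑ᶠ c : Quotient (chainSetoid p G), (-1) ^ c.out.1.ncard * homs g (chainStabilizer c.out.1)

/-- `x` is an integer which is divisible by `m`. -/
def Div (m : ℕ) (x : ℚ) : Prop := ∃ c : ℤ, x = m * c

/-- `g ≥ 2` is `p`-adically near to `1` and congruent to `1` modulo `p - 1`: `p^N (p - 1)` divides
`g - 1`. -/
def Near (p N g : ℕ) : Prop := 2 ≤ g ∧ p ^ N * (p - 1) ∣ g - 1

/-- `g ↦ χ̃_g(G)` is `p`-adically continuous at `g = 1`. -/
def Continuous (p : ℕ) (G : Type) [Group G] : Prop :=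
  ∀ N : ℕ, ∃ M : ℕ, ∀ g : ℕ, Near p M g → Div (p ^ N) (red p g G - red p 1 G)

/-- A class of groups which is closed under isomorphisms, subgroups and quotients by normal
`p`-subgroups. -/
structure Closed (p : ℕ) (C : ∀ (H : Type) [Group H], Prop) : Prop where
  iso : ∀ (G H : Type) [Group G] [Group H], C G → Nonempty (G ≃* H) → C H
  sub : ∀ (G : Type) [Group G], C G → ∀ H : Subgroup G, C H
  quot : ∀ (G : Type) [Group G], C G → ∀ (M : Subgroup G) [M.Normal], IsPGroup p M → C (G ⧸ M)

/-- `H` has no normal subgroup of index `p` and no nontrivial normal `p`-subgroup. -/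
structure Reduced (p : ℕ) (H : Type) [Group H] : Prop where
  perfect : ∀ N : Subgroup H, N.Normal → N.index ≠ p
  radical : ∀ M : Subgroup H, M.Normal → IsPGroup p M → M = ⊥

/-- The statements for one finite group `G`. -/
structure Law (p : ℕ) (G : Type) [Group G] : Prop where
  /-- `|G|` divides `|Hom(Π_g, G)|`. -/
  frobenius : ∀ g : ℕ, 1 ≤ g → Div 1 (homs g G)
  /-- `χ̃_g(G)` is an integer. -/
  integral : ∀ g : ℕ, 1 ≤ g → Div 1 (red p g G)
  /-- `- χ̃_g(G)` is an alternating sum over chains. -/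
  chains : ∀ g : ℕ, 1 ≤ g → - red p g G = chainSum p g G
  /-- The unreduced Euler characteristic is divisible by `p^(2g-2)`. -/
  divisible : ∀ g : ℕ, 1 ≤ g → Div (p ^ (2 * g - 2)) (full p g G)
  /-- Kummer congruences. -/
  kummer : ∀ N g g' : ℕ, 2 ≤ g → 2 ≤ g' → g ≡ g' [MOD p ^ N * (p - 1)] →
    Div (p ^ min (N + 1) (min (2 * g - 2) (2 * g' - 2))) (red p g G - red p g' G)
  /-- The limit for `g → 1` is `- z_p(G)`. -/
  limit : ∀ N g : ℕ, Near p N g → Div (p ^ (N + 1)) (red p g G + numDefectZero p G)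
  /-- The conjecture in terms of `χ̃_1(G)`. -/
  one : KRC p G ↔ - red p 1 G = numDefectZero p G
  /-- The conjecture for `G` is the continuity at `g = 1`. -/
  cont : KRC p G ↔ Continuous p G
  /-- One sequence of genera tending to `1` suffices. -/
  sparse : KRC p G ↔ ∀ N : ℕ, ∃ g : ℕ, Near p N g ∧ Div (p ^ N) (red p g G - red p 1 G)
  /-- One genus suffices. -/
  single : ∀ N g : ℕ, Near p N g → |red p 1 G| + numDefectZero p G < (p : ℚ) ^ (N + 1) →
    (KRC p G ↔ Div (p ^ (N + 1)) (red p g G - red p 1 G))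

/-! ### Divisibility of rational numbers -/

lemma div_add {m : ℕ} {x y : ℚ} (hx : Div m x) (hy : Div m y) : Div m (x + y) := by
  obtain ⟨a, rfl⟩ := hx
  obtain ⟨b, rfl⟩ := hy
  exact ⟨a + b, by push_cast; ring⟩

lemma div_neg {m : ℕ} {x : ℚ} (hx : Div m x) : Div m (-x) := by
  obtain ⟨a, rfl⟩ := hx
  exact ⟨-a, by push_cast; ring⟩

lemma div_sub {m : ℕ} {x y : ℚ} (hx : Div m x) (hy : Div m y) : Div m (x - y) := by
  rw [sub_eq_add_neg]
  exact div_add hx (div_neg hy)

lemma div_of_dvd {m m' : ℕ} (h : m ∣ m') {x : ℚ} (hx : Div m' x) : Div m x := by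
  obtain ⟨k, rfl⟩ := h
  obtain ⟨a, rfl⟩ := hx
  exact ⟨k * a, by push_cast; ring⟩

lemma div_pow {p a b : ℕ} (h : a ≤ b) {x : ℚ} (hx : Div (p ^ b) x) : Div (p ^ a) x :=
  div_of_dvd (pow_dvd_pow p h) hx

lemma div_int {m : ℕ} {x : ℤ} (h : (m : ℤ) ∣ x) : Div m (x : ℚ) := by
  obtain ⟨c, rfl⟩ := h
  exact ⟨c, by push_cast; ring⟩

lemma div_small {m : ℕ} {x : ℚ} (hx : Div m x) (h : |x| < m) : x = 0 := by
  obtain ⟨c, rfl⟩ := hx
  have hm : (0 : ℚ) < m := (abs_nonneg _).trans_lt h
  have h1 : |((m * c : ℤ) : ℚ)| < m := by push_cast; exact h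
  have hc : c = 0 := by
    by_contra hc
    have h2 : (1 : ℚ) ≤ |(c : ℚ)| := by
      have : (1 : ℤ) ≤ |c| := Int.one_le_abs hc
      exact_mod_cast this
    rw [abs_mul, abs_of_pos hm] at h
    nlinarith
  rw [hc]
  simp

/-! ### Comparison with the library -/

section

variable {p : ℕ} [hp : Fact p.Prime] {G : Type} [Group G] [Finite G]

open Pool.Agent.Y63.KR (surfaceChi surfaceCount zsum0)

lemma homs_eq (n : ℕ) (H : Type) [Group H] [Finite H] : homs (n + 1) H = (surfaceCount (n + 1) H : ℚ) := by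
  unfold homs
  rw [← Pool.Agent.Y63.KR.card_mul_surfaceCount]
  have : (Nat.card H : ℚ) ≠ 0 := by exact_mod_cast Nat.card_pos.ne'
  push_cast
  field_simp

lemma red_eq (g : ℕ) : red p g G = surfaceChi p g G := by
  have : Fintype {q : Fin g → G × G // surfaceWord q = 1} := Fintype.ofFinite _
  unfold red full homs surfaceChi numHom
  rw [finsum_eq_sum_of_fintype, finsum_eq_sum_of_fintype, Finset.sum_sub_distrib, sub_div]
  congr 2
  simp [Nat.card_eq_fintype_card]

/-- the alternating sum, an integer -/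
def A (p n : ℕ) (G : Type) [Group G] : ℤ :=
  alternatingSum p G (fun H => (surfaceCount (n + 1) H : ℤ))

lemma red_A (n : ℕ) : red p (n + 1) G = -(A p n G : ℚ) := by
  rw [red_eq, Pool.Agent.Y63.KR.surfaceChi_eq]
  rfl

lemma chainSum_A (n : ℕ) : chainSum p (n + 1) G = (A p n G : ℚ) := by
  have : Fintype (Quotient (chainSetoid p G)) := Fintype.ofFinite _
  unfold chainSum A alternatingSum
  rw [finsum_eq_sum_of_fintype, finsum_eq_sum_of_fintype]
  push_cast
  refine Finset.sum_congr rfl fun c _ => ?_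
  rw [homs_eq]

lemma full_A (n : ℕ) : full p (n + 1) G = -((A p n G - (surfaceCount (n + 1) G : ℤ) : ℤ) : ℚ) := by
  have h := red_A (p := p) (G := G) n
  unfold red at h
  rw [homs_eq] at h
  push_cast
  linarith

/-- the sum over the characters of defect zero -/
lemma A_mod (n : ℕ) [Fintype G] : ((p ^ (2 * n) : ℕ) : ℤ) ∣ A p n G - (zsum0 p n G : ℤ) := by
  have h1 := Pool.Agent.Y63.KR.alternatingSum_mod (p := p) (G := G) n
  have h2 := (Nat.modEq_iff_dvd.1 (Pool.Agent.Y63.KR.zsum_mod (p := p) (G := G) n).symm)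
  rw [← Pool.Agent.Y63.KR.surfaceCount_eq] at h2
  rw [Nat.cast_pow] at h2
  have h3 := dvd_add h1 h2
  have e : A p n G - (zsum0 p n G : ℤ) =
      (alternatingSum p G (fun H => (surfaceCount (n + 1) H : ℤ)) - (surfaceCount (n + 1) G : ℤ)) +
        ((surfaceCount (n + 1) G : ℤ) - (zsum0 p n G : ℤ)) := by
    unfold A
    ring
  rw [e, Nat.cast_pow]
  exact h3

lemma zsum0_kummer [Fintype G] {N n k : ℕ} (hk : p ^ N * (p - 1) ∣ k) :
    zsum0 p (n + k) G ≡ zsum0 p n G [MOD p ^ (N + 1)] := by
  unfold Pool.Agent.Y63.KR.zsum0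
  apply Nat.ModEq.sum
  intro chi hchi
  have h1 := Pool.Agent.Y63.KR.unit_pow (p := p) (N := N) (n := 2 * k) (Finset.mem_filter.mp hchi).2
    (Dvd.dvd.mul_left hk 2)
  have h2 := h1.mul_left (Pool.Agent.Y63.KR.cod chi ^ (2 * n))
  rw [mul_one, ← pow_add, ← mul_add] at h2
  exact h2

lemma A_kummer {N n k : ℕ} (hk : p ^ N * (p - 1) ∣ k) :
    ((p ^ min (N + 1) (2 * n) : ℕ) : ℤ) ∣ A p (n + k) G - A p n G := by
  have : Fintype G := Fintype.ofFinite G
  have h1 := A_mod (p := p) (G := G) n
  have h2 := A_mod (p := p) (G := G) (n + k)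
  have h3 := Nat.modEq_iff_dvd.1 (zsum0_kummer (p := p) (G := G) (n := n) hk).symm
  have d1 : ((p ^ min (N + 1) (2 * n) : ℕ) : ℤ) ∣ ((p ^ (2 * n) : ℕ) : ℤ) := by
    exact_mod_cast pow_dvd_pow p (min_le_right _ _)
  have d2 : ((p ^ min (N + 1) (2 * n) : ℕ) : ℤ) ∣ ((p ^ (2 * (n + k)) : ℕ) : ℤ) := by
    exact_mod_cast pow_dvd_pow p ((min_le_right _ _).trans (by omega))
  have d3 : ((p ^ min (N + 1) (2 * n) : ℕ) : ℤ) ∣ ((p ^ (N + 1) : ℕ) : ℤ) := by
    exact_mod_cast pow_dvd_pow p (min_le_left _ _)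
  have e : A p (n + k) G - A p n G = (A p (n + k) G - (zsum0 p (n + k) G : ℤ)) -
      (A p n G - (zsum0 p n G : ℤ)) + ((zsum0 p (n + k) G : ℤ) - (zsum0 p n G : ℤ)) := by ring
  rw [e]
  exact dvd_add (dvd_sub (d2.trans h2) (d1.trans h1)) (d3.trans h3)

lemma kummer_le {N g g' : ℕ} (hg : 2 ≤ g) (hgg : g ≤ g') (h : g ≡ g' [MOD p ^ N * (p - 1)]) :
    Div (p ^ min (N + 1) (2 * g - 2)) (red p g' G - red p g G) := by
  obtain ⟨n, rfl⟩ : ∃ n, g = n + 1 := ⟨g - 1, by omega⟩
  obtain ⟨k, rfl⟩ : ∃ k, g' = n + k + 1 := ⟨g' - (n + 1), by omega⟩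
  have hk : p ^ N * (p - 1) ∣ k := by
    have h1 := (Nat.modEq_iff_dvd' hgg).1 h
    have e : n + k + 1 - (n + 1) = k := by omega
    rwa [e] at h1
  have h2 := A_kummer (p := p) (G := G) (n := n) hk
  rw [red_A, red_A]
  have e : 2 * (n + 1) - 2 = 2 * n := by omega
  rw [e]
  have h3 := div_neg (div_int h2)
  have e2 : -((A p (n + k) G : ℤ) : ℚ) - -((A p n G : ℤ) : ℚ) = -(((A p (n + k) G - A p n G : ℤ)) : ℚ) := by
    push_cast
    ring
  rw [e2]
  exact h3

lemma near_ge {N g : ℕ} (h : Near p N g) : ∃ n, n ≠ 0 ∧ g = n + 1 ∧ p ^ N * (p - 1) ∣ n :=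
  ⟨g - 1, by have := h.1; omega, by have := h.1; omega, h.2⟩

lemma near_exists (N : ℕ) : ∃ g, Near p N g := by
  have h1 := hp.out.two_le
  have h2 : 0 < p ^ N * (p - 1) := Nat.mul_pos (pow_pos hp.out.pos _) (by omega)
  exact ⟨p ^ N * (p - 1) + 1, by omega, by simp⟩

lemma near_mono {M N g : ℕ} (h : M ≤ N) (hg : Near p N g) : Near p M g :=
  ⟨hg.1, (Nat.mul_dvd_mul_right (pow_dvd_pow p h) _).trans hg.2⟩

lemma lim (N g : ℕ) (h : Near p N g) : Div (p ^ (N + 1)) (red p g G + numDefectZero p G) := by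
  obtain ⟨n, hn0, rfl, hn⟩ := near_ge h
  have h1 := Pool.Agent.Y63.KR.alternatingSum_mod' (p := p) (G := G) hn0 hn
  rw [red_A]
  have h2 : Div (p ^ (N + 1)) ((A p n G - (numDefectZero p G : ℤ) : ℤ) : ℚ) := by
    refine div_int ?_
    push_cast
    exact h1
  have e : -(A p n G : ℚ) + (numDefectZero p G : ℚ) = -((A p n G - (numDefectZero p G : ℤ) : ℤ) : ℚ) := by
    push_cast
    ring
  rw [e]
  exact div_neg h2

lemma krc_one : KRC p G ↔ - red p 1 G = numDefectZero p G := by
  have h1 := Pool.Agent.Y63.KR.altSum_classes (p := p) (G := G)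
  have h2 := Pool.Agent.Y63.KR.sum_surfaceCount_one (p := p) (G := G)
  have h3 := red_A (p := p) (G := G) 0
  unfold A at h3
  rw [zero_add, h2, h1] at h3
  unfold KRC
  rw [h3]
  constructor
  · intro h
    rw [h]
    ring
  · intro h
    linarith

lemma sub_of_krc (h : KRC p G) {N g : ℕ} (hg : Near p N g) :
    Div (p ^ (N + 1)) (red p g G - red p 1 G) := by
  have h1 := krc_one.1 h
  have h2 := lim (G := G) N g hg
  rw [← h1] at h2
  rw [sub_eq_add_neg]
  exact h2

lemma int_red (n : ℕ) : Div 1 (red p (n + 1) G) := ⟨-A p n G, by rw [red_A]; push_cast; ring⟩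

lemma krc_of_sparse (h : ∀ N : ℕ, ∃ g : ℕ, Near p N g ∧ Div (p ^ N) (red p g G - red p 1 G)) :
    KRC p G := by
  rw [krc_one]
  have h1 : ∀ N : ℕ, Div (p ^ N) (red p 1 G + numDefectZero p G) := by
    intro N
    obtain ⟨g, hg, h2⟩ := h N
    have h3 := div_pow (Nat.le_succ N) (lim (G := G) N g hg)
    have h4 := div_sub h3 h2
    have e : red p g G + numDefectZero p G - (red p g G - red p 1 G) =
        red p 1 G + numDefectZero p G := by ring
    rwa [e] at h4
  obtain ⟨N, hN⟩ := pow_unbounded_of_one_lt |red p 1 G + numDefectZero p G|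
    (show (1 : ℚ) < p by exact_mod_cast hp.out.one_lt)
  have h2 := div_small (h1 N) (by push_cast; exact hN)
  linarith

/-- **The statements for one group.** -/
theorem law : Law p G where
  frobenius g hg := by
    obtain ⟨n, rfl⟩ : ∃ n, g = n + 1 := ⟨g - 1, by omega⟩
    exact ⟨surfaceCount (n + 1) G, by rw [homs_eq]; push_cast; ring⟩
  integral g hg := by
    obtain ⟨n, rfl⟩ : ∃ n, g = n + 1 := ⟨g - 1, by omega⟩
    exact int_red n
  chains g hg := by
    obtain ⟨n, rfl⟩ : ∃ n, g = n + 1 := ⟨g - 1, by omega⟩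
    rw [red_A, chainSum_A, neg_neg]
  divisible g hg := by
    obtain ⟨n, rfl⟩ : ∃ n, g = n + 1 := ⟨g - 1, by omega⟩
    have e : 2 * (n + 1) - 2 = 2 * n := by omega
    rw [full_A, e]
    refine div_neg (div_int ?_)
    push_cast
    exact Pool.Agent.Y63.KR.alternatingSum_mod (p := p) (G := G) n
  kummer N g g' hg hg' h := by
    rcases le_total g g' with h1 | h1
    · have h2 := div_neg (kummer_le (G := G) hg h1 h)
      rw [neg_sub] at h2
      exact div_pow (by omega) h2
    · exact div_pow (by omega) (kummer_le (G := G) hg' h1 h.symm)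
  limit := lim
  one := krc_one
  cont := by
    constructor
    · intro h N
      exact ⟨N, fun g hg => div_pow (Nat.le_succ N) (sub_of_krc h hg)⟩
    · intro h
      refine krc_of_sparse fun N => ?_
      obtain ⟨M, hM⟩ := h N
      obtain ⟨g, hg⟩ := near_exists (p := p) (max M N)
      exact ⟨g, near_mono (le_max_right _ _) hg, hM g (near_mono (le_max_left _ _) hg)⟩
  sparse := by
    constructor
    · intro h N
      obtain ⟨g, hg⟩ := near_exists (p := p) N
      exact ⟨g, hg, div_pow (Nat.le_succ N) (sub_of_krc h hg)⟩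
    · exact krc_of_sparse
  single N g hg hb := by
    constructor
    · exact fun h => sub_of_krc h hg
    · intro h
      rw [krc_one]
      have h4 := div_sub (lim (G := G) N g hg) h
      have e : red p g G + numDefectZero p G - (red p g G - red p 1 G) =
          red p 1 G + numDefectZero p G := by ring
      rw [e] at h4
      have h5 : |red p 1 G + numDefectZero p G| < ((p ^ (N + 1) : ℕ) : ℚ) := by
        push_cast
        refine lt_of_le_of_lt (abs_add_le _ _) ?_
        rwa [Nat.abs_cast]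
      have h6 := div_small h4 h5
      linarith

end

/-- **The Knörr–Robinson conjecture and the surface groups.** Let `p` be a prime. (1) `Law p G` holds for
every finite group `G`; in particular the conjecture holds for `G` if and only if `g ↦ χ̃_g(G)` is
`p`-adically continuous at `g = 1`. (2) Let `C` be a class of groups closed under isomorphisms, subgroups
and quotients by normal `p`-subgroups (for example all groups). The conjecture holds for all finite groups
`Γ` with a normal subgroup in `C` of `p`-power index if and only if `g ↦ χ̃_g(H)` is `p`-adically continuous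
at `g = 1` for all finite groups `H` in `C` which have neither a normal subgroup of index `p` nor a
nontrivial normal `p`-subgroup. -/
theorem result (p : ℕ) [Fact p.Prime] :
    (∀ (G : Type) [Group G] [Finite G], Law p G) ∧
    ∀ C : (H : Type) → [Group H] → Prop, Closed p C →
      ((∀ (Γ : Type) [Group Γ] [Finite Γ] (G : Subgroup Γ) [G.Normal], C G → IsPGroup p (Γ ⧸ G) →
          KRC p Γ) ↔
        ∀ (H : Type) [Group H] [Finite H], C H → Reduced p H → Continuous p H) := by
  refine ⟨fun G _ _ => law, fun C hC => ?_⟩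
  have hC' : Pool.Agent.Y63.NV.Closed p C := ⟨hC.iso, hC.sub, hC.quot⟩
  rw [← Pool.Agent.Y63.NV.krc_strong p C hC']
  constructor
  · intro h H _ _ hH hR
    exact (law (p := p) (G := H)).cont.1 (h H hH ⟨hR.perfect, hR.radical⟩)
  · intro h H _ _ hH hR
    exact (law (p := p) (G := H)).cont.2 (h H hH ⟨hR.perfect, hR.radical⟩)

end Pool.Agent.Results.MP_b6945b_al.SurfaceGroups
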